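import Pool.Agent.Helper61.MA.Vals

/-!
# Project MA, module MA-11: the value of `wN` is the first uncountable ordinal of the model
-/

set_option autoImplicit false
set_option linter.unusedSectionVars false

namespace Pool.Agent.Helper52.MA

open Set Pool.Agent.Helper33.HM Pool.Agent.Helper33.HMG Pool.Agent.Helper32.HB

universe u

variable {P : Type u} [Preorder P] [OrderTop P] {Ω : Type} [LinearOrder Ω] [WellFoundedLT Ω]
variable {R : Type} {W : R → (ℕ → Nm P) → P → Nm P → Prop} (g : Gen W) (hg : Meets Ω g)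

theorem om_val_num (n : ℕ) : g.val (numN n) = Gen.nat n := g.val_num n

include g in
theorem om_nat_inj {m n : ℕ} (h : Gen.nat m = Gen.nat n) : m = n := by
  rw [← om_val_num g m, ← om_val_num g n] at h
  obtain ⟨k, hk⟩ := (g.eq_iff (g.chk_num_mem m) (g.chk_num_mem n)).2 h
  exact eq_of_feq_numN hk

omit [Preorder P] [OrderTop P] in
theorem om_mem_omega {m : ZFSet.{0}} : m ∈ ZFSet.omega ↔ ∃ n : ℕ, m = Gen.nat n := by
  constructor
  · intro h
    induction m using Quotient.inductionOn with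
    | h x =>
      obtain ⟨⟨n⟩, hn⟩ : x ∈ PSet.omega := h
      exact ⟨n, ZFSet.sound hn⟩
  · rintro ⟨n, rfl⟩
    exact ⟨⟨n⟩, PSet.Equiv.rfl⟩

include hg in
theorem om_countable (hI : ∀ b : Ω, (Iio b).Countable) {b : Ω} (hb : on b ∈ g.N) :
    CountableIn g.M (g.val (on b)) := by
  obtain ⟨e, he, heN⟩ := exists_enum g hg hI hb
  have key : ∀ z, z ∈ g.val (enumN e) ↔ ∃ n : ℕ, on (e n) ∈ g.N ∧
      ZFSet.pair (Gen.nat n) (g.val (on (e n))) = z := by
    intro z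
    rw [g.mem_val]
    constructor
    · rintro ⟨⟨n⟩, h1, -, h3⟩
      change pairN (numN n) (on (e n)) ∈ g.N at h1
      change g.val (pairN (numN n) (on (e n))) = z at h3
      have h2 := snd_mem g hg h1
      rw [val_pairN' g hg (numN_mem g n) h2, om_val_num] at h3
      exact ⟨n, h2, h3⟩
    · rintro ⟨n, h2, h3⟩
      refine ⟨⟨n⟩, pairN_mem g hg (numN_mem g n) h2, ⟨0, le_top⟩, ?_⟩
      change g.val (pairN (numN n) (on (e n))) = z
      rw [val_pairN' g hg (numN_mem g n) h2, om_val_num]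
      exact h3
  refine ⟨g.val (enumN e), ⟨_, heN, rfl⟩, ?_, ?_⟩
  · intro n y z hy hz
    obtain ⟨m, -, hm⟩ := (key _).1 hy
    obtain ⟨l, -, hl⟩ := (key _).1 hz
    obtain ⟨h1, h2⟩ := ZFSet.pair_injective hm
    obtain ⟨h3, h4⟩ := ZFSet.pair_injective hl
    have h5 : m = l := om_nat_inj g (h1.trans h3.symm)
    subst h5
    exact h2.symm.trans h4
  · intro y hy
    obtain ⟨c, hc, hcN, rfl⟩ := (mem_val_on g).1 hy
    obtain ⟨n, hn⟩ := he c hc
    refine ⟨Gen.nat n, om_mem_omega.2 ⟨n, rfl⟩, (key _).2 ⟨n, ?_, ?_⟩⟩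
    · rw [hn]
      exact hcN
    · rw [hn]

include hg in
theorem om_uncountable (hN : NoColl P Ω) : ¬ CountableIn g.M (g.val (wN Ω)) := by
  rintro ⟨f, ⟨φ, hφ, rfl⟩, hfun, hsur⟩
  have ht : ∀ x ∈ [φ], x ∈ g.N := by simp [hφ]
  -- functionality is decided positively
  have h1 : Tr g (dcd Ω .fn (asg [φ])) := by
    rcases tr_dcd g hg .fn [φ] ht with h | h
    · exact h
    · exfalso
      have e1 : (dcd Ω .fn (asg [φ]))ᶜ ≤
          ⨆ n : ℕ, ⨆ y : Ω, ⨆ z : Ω, ⨆ _ : y ≠ z, fnc φ (numN n) y ⊓ fnc φ (numN n) z := by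
        change (⨅ n : ℕ, ⨅ x : Ω, ⨅ y : Ω, ⨅ _ : x ≠ y, (fnc φ (numN n) x ⊓
          fnc φ (numN n) y)ᶜ)ᶜ ≤ _
        simp only [compl_iInf, compl_compl]
        exact le_rfl
      obtain ⟨n, hn⟩ := exists_nat g hg hφ (tr_mono g e1 h)
      have ht2 : ∀ x ∈ [φ, numN n], x ∈ g.N := by simp [hφ, numN_mem g n]
      obtain ⟨y, hy, hy'⟩ := tr_fam g hg .fn1 [φ, numN n] ht2 hn
      have ht3 : ∀ x ∈ [φ, numN n, on y], x ∈ g.N := by simp [hφ, numN_mem g n, hy]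
      have e2 : fam .fn1 (asg [φ, numN n]) y ≤ ⨆ z : Ω, fam .fn2 (asg [φ, numN n, on y]) z := by
        change (⨆ z : Ω, ⨆ _ : y ≠ z, fnc φ (numN n) y ⊓ fnc φ (numN n) z) ≤
          ⨆ z : Ω, ⨆ _ : (on y : Nm P) ≠ on z, memv (pairN (numN n) (on y)) φ ⊓ fnc φ (numN n) z
        refine iSup_mono fun z => iSup_le fun hz => ?_
        exact le_iSup_of_le (fun hc => hz (on_injective hc)) le_rfl
      obtain ⟨z, hz, hz'⟩ := tr_fam g hg .fn2 [φ, numN n, on y] ht3 (tr_mono g e2 hy')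
      have e3 : y ≠ z ∧ Tr g (fnc φ (numN n) y) ∧ Tr g (fnc φ (numN n) z) := by
        change Tr g (⨆ _ : (on y : Nm P) ≠ on z, memv (pairN (numN n) (on y)) φ ⊓
          fnc φ (numN n) z) at hz'
        by_cases hyz : (on y : Nm P) = on z
        · exfalso
          rw [iSup_neg (by simpa using hyz)] at hz'
          exact not_tr_bot g hz'
        · rw [iSup_pos hyz] at hz'
          exact ⟨fun hc => hyz (by rw [hc]), (tr_inf g).1 hz'⟩
      obtain ⟨hne, h3, h4⟩ := e3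
      exact hne (val_on_inj g hy hz (hfun _ _ _ ((fnc_iff g hg hφ hy).1 h3)
        ((fnc_iff g hg hφ hz).1 h4)))
  -- surjectivity is decided positively
  have h2 : Tr g (dcd Ω .sur (asg [φ])) := by
    rcases tr_dcd g hg .sur [φ] ht with h | h
    · exact h
    · exfalso
      have e1 : (dcd Ω .sur (asg [φ]))ᶜ ≤ ⨆ x : Ω, fam .sur (asg [φ]) x := by
        change (⨅ x : Ω, ⨆ n : ℕ, fnc φ (numN n) x)ᶜ ≤ ⨆ x : Ω, ⨅ n : ℕ, (fnc φ (numN n) x)ᶜ
        simp only [compl_iInf, compl_iSup]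
        exact le_rfl
      obtain ⟨x, hx, hx'⟩ := tr_fam g hg .sur [φ] ht (tr_mono g e1 h)
      obtain ⟨m, hm, hm'⟩ := hsur (g.val (on x)) ((mem_val_wN g).2 ⟨x, hx, rfl⟩)
      obtain ⟨n, rfl⟩ := om_mem_omega.1 hm
      have h3 : Tr g (fnc φ (numN n) x)ᶜ := tr_mono g (iInf_le _ n) hx'
      exact tr_compl g h3 ((fnc_iff g hg hφ hx).2 hm')
  have h3 := (tr_inf g).2 ⟨h1, h2⟩
  have h4 := hN fun n x => fnc φ (numN n) x
  change Tr g ((⨅ n : ℕ, ⨅ x : Ω, ⨅ y : Ω, ⨅ _ : x ≠ y, (fnc φ (numN n) x ⊓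
          fnc φ (numN n) y)ᶜ) ⊓ (⨅ x : Ω, ⨆ n : ℕ, fnc φ (numN n) x)) at h3
  rw [h4] at h3
  exact not_tr_bot g h3

include hg in
theorem isOmega1 (hI : ∀ b : Ω, (Iio b).Countable) (hN : NoColl P Ω) :
    IsOmega1 g.M (g.val (wN Ω)) where
  trans := by
    intro x hx y hy
    obtain ⟨b, hb, rfl⟩ := (mem_val_wN g).1 hx
    obtain ⟨c, -, hc, rfl⟩ := (mem_val_on g).1 hy
    exact (mem_val_wN g).2 ⟨c, hc, rfl⟩
  trans' := by
    intro x hx y hy z hz
    obtain ⟨b, hb, rfl⟩ := (mem_val_wN g).1 hx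
    obtain ⟨c, hcb, hc, rfl⟩ := (mem_val_on g).1 hy
    obtain ⟨d, hdc, hd, rfl⟩ := (mem_val_on g).1 hz
    exact (mem_val_on g).2 ⟨d, hdc.trans hcb, hd, rfl⟩
  uncountable := om_uncountable g hg hN
  countable := by
    intro x hx
    obtain ⟨b, hb, rfl⟩ := (mem_val_wN g).1 hx
    exact om_countable g hg hI hb

end Pool.Agent.Helper52.MA
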